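import Pool.Agent.Helper76.GT.St

/-!
Module CAC of project GT (MP_b731ff_al): the Caccioppoli inequality for harmonic functions on a
Cayley graph.  The cut-off function is `cnt S R x / R`, where `cnt S R x` is the number of
`i < R` with `x ∈ S ^ (R + i)`.
-/

set_option autoImplicit false

namespace Pool.Agent.Helper13.GT

open Pool.Agent.Helper76.GT Filter
open scoped Pointwise

universe u

variable {H : Type u} [Group H] [DecidableEq H]

/-- number of `i < R` with `x ∈ S ^ (R + i)` -/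
def cnt (S : Finset H) (R : ℕ) (x : H) : ℕ :=
  ((Finset.range R).filter (fun i => x ∈ S ^ (R + i))).card

theorem mem_succ {S : Finset H} {n : ℕ} {x s : H} (hx : x ∈ S ^ n) (hs : s ∈ S) :
    x * s ∈ S ^ (n + 1) := by
  rw [pow_succ]
  exact Finset.mul_mem_mul hx hs

theorem cnt_le (S : Finset H) (R : ℕ) (x : H) : cnt S R x ≤ R :=
  (Finset.card_filter_le _ _).trans (by rw [Finset.card_range])

theorem cnt_one {S : Finset H} (h1 : (1 : H) ∈ S) {R : ℕ} {x : H} (hx : x ∈ S ^ R) :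
    cnt S R x = R := by
  have h : (Finset.range R).filter (fun i => x ∈ S ^ (R + i)) = Finset.range R := by
    apply Finset.filter_true_of_mem
    intro i _
    exact Finset.pow_subset_pow_right h1 (by omega) hx
  rw [cnt, h, Finset.card_range]

theorem cnt_zero {S : Finset H} (h1 : (1 : H) ∈ S) {R : ℕ} {x : H}
    (hx : x ∉ S ^ (2 * R - 1)) : cnt S R x = 0 := by
  have h : (Finset.range R).filter (fun i => x ∈ S ^ (R + i)) = ∅ := by
    apply Finset.filter_false_of_mem
    intro i hi h2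
    rw [Finset.mem_range] at hi
    exact hx (Finset.pow_subset_pow_right h1 (by omega) h2)
  rw [cnt, h, Finset.card_empty]

theorem cnt_step {S : Finset H} {R : ℕ} {x s : H} (hs : s ∈ S) :
    cnt S R x ≤ cnt S R (x * s) + 1 := by
  have h : (Finset.range R).filter (fun i => x ∈ S ^ (R + i)) ⊆
      insert (R - 1) (((Finset.range R).filter (fun i => x * s ∈ S ^ (R + i))).image
        (fun i => i - 1)) := by
    intro i hi
    rw [Finset.mem_filter, Finset.mem_range] at hi
    rw [Finset.mem_insert, Finset.mem_image]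
    by_cases h1 : i = R - 1
    · exact Or.inl h1
    · refine Or.inr ⟨i + 1, ?_, by omega⟩
      rw [Finset.mem_filter, Finset.mem_range]
      refine ⟨by omega, ?_⟩
      have h2 := mem_succ hi.2 hs
      have h3 : R + i + 1 = R + (i + 1) := by ring
      rwa [h3] at h2
  calc cnt S R x ≤ _ := Finset.card_le_card h
    _ ≤ (((Finset.range R).filter (fun i => x * s ∈ S ^ (R + i))).image
        (fun i => i - 1)).card + 1 := Finset.card_insert_le _ _
    _ ≤ cnt S R (x * s) + 1 := Nat.add_le_add_right Finset.card_image_le 1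

/-- the cut-off function -/
noncomputable def phi (S : Finset H) (R : ℕ) (x : H) : ℝ := (cnt S R x : ℝ) / R

theorem phi_diff {S : Finset H} (hinv : ∀ s ∈ S, s⁻¹ ∈ S) {R : ℕ} (hR : 1 ≤ R) {x s : H}
    (hs : s ∈ S) : (phi S R x - phi S R (x * s)) ^ 2 ≤ 1 / (R : ℝ) ^ 2 := by
  have h1 : cnt S R x ≤ cnt S R (x * s) + 1 := cnt_step hs
  have h2 : cnt S R (x * s) ≤ cnt S R x + 1 := by
    have h3 := cnt_step (S := S) (R := R) (x := x * s) (hinv s hs)
    rwa [mul_inv_cancel_right] at h3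
  have h1' : (cnt S R x : ℝ) ≤ cnt S R (x * s) + 1 := by exact_mod_cast h1
  have h2' : (cnt S R (x * s) : ℝ) ≤ cnt S R x + 1 := by exact_mod_cast h2
  have hR' : (0 : ℝ) < R := by exact_mod_cast hR
  have h4 : phi S R x - phi S R (x * s) = ((cnt S R x : ℝ) - cnt S R (x * s)) / R := by
    rw [phi, phi]
    ring
  rw [h4, div_pow]
  apply div_le_div_of_nonneg_right _ (by positivity)
  rw [sq_le_one_iff_abs_le_one, abs_le]
  constructor <;> linarith

/-- the pairs `(x, s)` with `x, x s ∈ W` -/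
def prs (W S : Finset H) : Finset (H × H) := (W ×ˢ S).filter (fun p => p.1 * p.2 ∈ W)

theorem sum_subst {W S : Finset H} (hinv : ∀ s ∈ S, s⁻¹ ∈ S) (F : H × H → ℝ) :
    ∑ p ∈ prs W S, F (p.1 * p.2, p.2⁻¹) = ∑ p ∈ prs W S, F p := by
  refine Finset.sum_nbij' (fun p => (p.1 * p.2, p.2⁻¹)) (fun p => (p.1 * p.2, p.2⁻¹)) ?_ ?_ ?_ ?_ ?_
  · intro p hp
    rw [prs, Finset.mem_filter, Finset.mem_product] at hp ⊢
    refine ⟨⟨hp.2, hinv _ hp.1.2⟩, ?_⟩
    simp only [mul_inv_cancel_right]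
    exact hp.1.1
  · intro p hp
    rw [prs, Finset.mem_filter, Finset.mem_product] at hp ⊢
    refine ⟨⟨hp.2, hinv _ hp.1.2⟩, ?_⟩
    simp only [mul_inv_cancel_right]
    exact hp.1.1
  · intro p _
    simp only [mul_inv_cancel_right, inv_inv]
  · intro p _
    simp only [mul_inv_cancel_right, inv_inv]
  · intro p _
    rfl

theorem pCAC (H : Type u) [Group H] [DecidableEq H] : CAC H := by
  intro S hS f hf R hR
  have h1 := hS.one
  have hinv := hS.inv
  have hR' : (0 : ℝ) < R := by exact_mod_cast hR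
  set W : Finset H := S ^ (2 * R) with hW
  -- the harmonic identity
  have hE1 : ∑ p ∈ prs W S, phi S R p.1 ^ 2 * f p.1 * (f p.1 - f (p.1 * p.2)) = 0 := by
    have h2 : ∑ p ∈ prs W S, phi S R p.1 ^ 2 * f p.1 * (f p.1 - f (p.1 * p.2)) =
        ∑ p ∈ W ×ˢ S, phi S R p.1 ^ 2 * f p.1 * (f p.1 - f (p.1 * p.2)) := by
      apply Finset.sum_subset (Finset.filter_subset _ _)
      intro p hp hp2
      rw [Finset.mem_product] at hp
      have h3 : p.1 ∉ S ^ (2 * R - 1) := by
        intro h4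
        apply hp2
        rw [Finset.mem_filter, Finset.mem_product]
        refine ⟨hp, ?_⟩
        have h5 := mem_succ h4 hp.2
        have h6 : 2 * R - 1 + 1 = 2 * R := by omega
        rwa [h6] at h5
      rw [phi, cnt_zero h1 h3]
      simp
    rw [h2, Finset.sum_product]
    apply Finset.sum_eq_zero
    intro x _
    simp only
    rw [← Finset.mul_sum]
    have h3 : ∑ s ∈ S, (f x - f (x * s)) = 0 := by
      have h4 := hf x
      rw [← neg_eq_zero, ← Finset.sum_neg_distrib] at h4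
      rw [← h4]
      apply Finset.sum_congr rfl
      intro s _
      ring
    rw [h3, mul_zero]
  have hE2 : ∑ p ∈ prs W S, phi S R (p.1 * p.2) ^ 2 * f (p.1 * p.2) *
      (f (p.1 * p.2) - f p.1) = 0 := by
    have h2 := sum_subst (W := W) hinv
      (fun p => phi S R p.1 ^ 2 * f p.1 * (f p.1 - f (p.1 * p.2)))
    simp only [mul_inv_cancel_right] at h2
    rw [h2, hE1]
  have hA : ∑ p ∈ prs W S, phi S R (p.1 * p.2) ^ 2 * (f p.1 - f (p.1 * p.2)) ^ 2 =
      ∑ p ∈ prs W S, phi S R p.1 ^ 2 * (f p.1 - f (p.1 * p.2)) ^ 2 := by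
    have h2 := sum_subst (W := W) hinv
      (fun p => phi S R p.1 ^ 2 * (f p.1 - f (p.1 * p.2)) ^ 2)
    simp only [mul_inv_cancel_right] at h2
    rw [← h2]
    apply Finset.sum_congr rfl
    intro p _
    ring
  have hF : ∑ p ∈ prs W S, f (p.1 * p.2) ^ 2 = ∑ p ∈ prs W S, f p.1 ^ 2 :=
    sum_subst (W := W) hinv (fun p => f p.1 ^ 2)
  set A : ℝ := ∑ p ∈ prs W S, phi S R p.1 ^ 2 * (f p.1 - f (p.1 * p.2)) ^ 2 with hAdef
  set Q : ℝ := ∑ p ∈ prs W S, (phi S R p.1 - phi S R (p.1 * p.2)) ^ 2 * f (p.1 * p.2) ^ 2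
    with hQdef
  -- the main inequality
  have hmain : A ≤ 1 / 4 * (A + A) + 2 * Q := by
    have h2 : A ≤ ∑ p ∈ prs W S, phi S R p.1 ^ 2 * f p.1 * (f p.1 - f (p.1 * p.2)) +
        ∑ p ∈ prs W S, phi S R (p.1 * p.2) ^ 2 * f (p.1 * p.2) * (f (p.1 * p.2) - f p.1) +
        (1 / 4 * (A + ∑ p ∈ prs W S, phi S R (p.1 * p.2) ^ 2 *
          (f p.1 - f (p.1 * p.2)) ^ 2) + 2 * Q) := by
      rw [hAdef, hQdef, mul_add, Finset.mul_sum, Finset.mul_sum, Finset.mul_sum,
        ← Finset.sum_add_distrib, ← Finset.sum_add_distrib, ← Finset.sum_add_distrib,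
        ← Finset.sum_add_distrib]
      apply Finset.sum_le_sum
      intro p _
      nlinarith [sq_nonneg ((f p.1 - f (p.1 * p.2)) * (phi S R p.1 + phi S R (p.1 * p.2)) +
          4 * ((phi S R p.1 - phi S R (p.1 * p.2)) * f (p.1 * p.2))),
        sq_nonneg ((f p.1 - f (p.1 * p.2)) * (phi S R p.1 - phi S R (p.1 * p.2)))]
    rw [hE1, hE2, hA] at h2
    linarith
  -- upper bound for `Q`
  have hQ : Q ≤ 1 / (R : ℝ) ^ 2 * ((S.card : ℝ) * ∑ x ∈ W, f x ^ 2) := by
    calc Q ≤ ∑ p ∈ prs W S, 1 / (R : ℝ) ^ 2 * f (p.1 * p.2) ^ 2 := by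
          apply Finset.sum_le_sum
          intro p hp
          rw [prs, Finset.mem_filter, Finset.mem_product] at hp
          exact mul_le_mul_of_nonneg_right (phi_diff hinv hR hp.1.2) (sq_nonneg _)
      _ = 1 / (R : ℝ) ^ 2 * ∑ p ∈ prs W S, f p.1 ^ 2 := by rw [← Finset.mul_sum, hF]
      _ ≤ 1 / (R : ℝ) ^ 2 * ∑ p ∈ W ×ˢ S, f p.1 ^ 2 := by
          apply mul_le_mul_of_nonneg_left _ (by positivity)
          exact Finset.sum_le_sum_of_subset_of_nonneg (Finset.filter_subset _ _)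
            (fun p _ _ => sq_nonneg _)
      _ = 1 / (R : ℝ) ^ 2 * ((S.card : ℝ) * ∑ x ∈ W, f x ^ 2) := by
          rw [Finset.sum_product]
          congr 1
          rw [Finset.mul_sum]
          apply Finset.sum_congr rfl
          intro x _
          simp only
          rw [Finset.sum_const, nsmul_eq_mul]
  -- lower bound for `A`
  have hL : ∑ x ∈ S ^ R, grad2 S f x ≤ A := by
    have h2 : ∑ x ∈ S ^ R, grad2 S f x =
        ∑ p ∈ (S ^ R) ×ˢ S, phi S R p.1 ^ 2 * (f p.1 - f (p.1 * p.2)) ^ 2 := by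
      rw [Finset.sum_product]
      apply Finset.sum_congr rfl
      intro x hx
      rw [grad2]
      apply Finset.sum_congr rfl
      intro s _
      simp only
      rw [phi, cnt_one h1 hx, div_self hR'.ne']
      ring
    rw [h2]
    apply Finset.sum_le_sum_of_subset_of_nonneg
    · intro p hp
      rw [Finset.mem_product] at hp
      rw [prs, Finset.mem_filter, Finset.mem_product]
      exact ⟨⟨Finset.pow_subset_pow_right h1 (by omega) hp.1, hp.2⟩,
        Finset.pow_subset_pow_right h1 (show R + 1 ≤ 2 * R by omega) (mem_succ hp.1 hp.2)⟩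
    · intro p _ _
      positivity
  have hfin : A ≤ 4 * Q := by linarith
  calc ∑ x ∈ S ^ R, grad2 S f x ≤ A := hL
    _ ≤ 4 * Q := hfin
    _ ≤ 4 * (1 / (R : ℝ) ^ 2 * ((S.card : ℝ) * ∑ x ∈ W, f x ^ 2)) := by linarith
    _ = 4 * (S.card : ℝ) / (R : ℝ) ^ 2 * ∑ x ∈ W, f x ^ 2 := by ring

end Pool.Agent.Helper13.GT
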